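import Mathlib
import Pool.Agent.Q186.Lens.Pair

/-!
# MP_1b0b4e_gt, Q1: yes

Isospectral non-isometric lens spaces with fundamental group of order `q = 56` and
`n ≡ -1 (mod φ(q) / 2)`.
-/

set_option autoImplicit false

namespace Pool.Agent.Results.MP_1b0b4e_gt.OrderFiftySix

/-- `Γ` acts freely on the unit sphere of `ℝ^N`: no element other than the identity fixes a unit
vector. -/
def ActsFreely {N : ℕ} (Γ : Subgroup (Matrix.orthogonalGroup (Fin N) ℝ)) : Prop :=
  ∀ g ∈ Γ, g ≠ 1 → ∀ v : Fin N → ℝ, v ⬝ᵥ v = 1 → g.1.mulVec v ≠ v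

/-- The dimension of the space of `Γ`-invariant harmonic homogeneous polynomials of degree `k` on
`ℝ^N`, i.e. the multiplicity of the eigenvalue `k (k + N - 2)` of the Laplacian on the quotient of
the unit sphere by `Γ`. -/
noncomputable def multiplicity {N : ℕ} (Γ : Subgroup (Matrix.orthogonalGroup (Fin N) ℝ))
    (k : ℕ) : ℕ :=
  Module.finrank ℝ ↥(MvPolynomial.homogeneousSubmodule (Fin N) ℝ k ⊓
    LinearMap.ker (∑ i : Fin N,
      (MvPolynomial.pderiv i).toLinearMap ∘ₗ (MvPolynomial.pderiv i).toLinearMap) ⊓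
    ⨅ g ∈ Γ, LinearMap.ker ((MvPolynomial.aeval (fun i : Fin N =>
      ∑ j : Fin N, MvPolynomial.C (g.1 i j) * MvPolynomial.X j)).toLinearMap
        - LinearMap.id))

/-- The two quotients of the sphere have the same Laplace spectrum with multiplicities. -/
def Isospectral {N : ℕ} (Γ₁ Γ₂ : Subgroup (Matrix.orthogonalGroup (Fin N) ℝ)) : Prop :=
  ∀ k : ℕ, multiplicity Γ₁ k = multiplicity Γ₂ k

/-- The two quotients of the sphere are isometric: the groups are conjugate in `O(N)`. -/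
def Isometric {N : ℕ} (Γ₁ Γ₂ : Subgroup (Matrix.orthogonalGroup (Fin N) ℝ)) : Prop :=
  ∃ h : Matrix.orthogonalGroup (Fin N) ℝ, ∀ g, g ∈ Γ₁ ↔ h * g * h⁻¹ ∈ Γ₂

/-- The deck group of the lens space `L(q; s)`: it is generated by the orthogonal map of `ℝ^{2n}`
that rotates the `j`-th coordinate plane by the angle `2 π s_j / q`. -/
noncomputable def LensGroup {q n : ℕ} (s : Fin n → ZMod q) :
    Subgroup (Matrix.orthogonalGroup (Fin (2 * n)) ℝ) :=
  Subgroup.zpowers (Pool.Agent.Helper477.Sph.lg s)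

open Pool.Agent.Helper477 Pool.Agent.Helper477.Sph Pool.Agent.Helper477.HarmInv

theorem free_of {N : ℕ} (Γ : Subgroup (Matrix.orthogonalGroup (Fin N) ℝ)) (h : FreeOn Γ) :
    ActsFreely Γ := by
  intro g hg hg1 v hv hgv
  rw [h g hg hg1 v hgv] at hv
  simp at hv

theorem iso_of_hilb {N : ℕ} (hN : 0 < N) (Γ₁ Γ₂ : Subgroup (Matrix.orthogonalGroup (Fin N) ℝ))
    (h : hilb Γ₁ = hilb Γ₂) : Isospectral Γ₁ Γ₂ := by
  intro k
  refine isospectral_of_invariants hN Γ₁ Γ₂ (fun k => ?_) k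
  have h1 := congrArg (PowerSeries.coeff k) h
  unfold hilb at h1
  rw [PowerSeries.coeff_mk, PowerSeries.coeff_mk] at h1
  exact_mod_cast h1

/-- The lens spaces `L(56; s)` and `L(56; s')` are isospectral and not isometric, both with
fundamental group of order `56`. -/
structure IsPair {n : ℕ} (s s' : Fin n → ZMod 56) : Prop where
  unit₁ : ∀ j, IsUnit (s j)
  unit₂ : ∀ j, IsUnit (s' j)
  order₁ : Nat.card (LensGroup s) = 56
  order₂ : Nat.card (LensGroup s') = 56
  free₁ : ActsFreely (LensGroup s)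
  free₂ : ActsFreely (LensGroup s')
  isospectral : Isospectral (LensGroup s) (LensGroup s')
  not_isometric : ¬ Isometric (LensGroup s) (LensGroup s')

theorem mk {n : ℕ} (hn : 0 < n) {s s' : Fin n → ZMod 56} (hs : ∀ j, IsUnit (s j))
    (hs' : ∀ j, IsUnit (s' j)) (h1 : hilb (LG s) = hilb (LG s')) (h2 : ¬ Conj (LG s) (LG s')) :
    IsPair s s' :=
  ⟨hs, hs', card_LG hn hs, card_LG hn hs', free_of _ (free_LG hs), free_of _ (free_LG hs'),
    iso_of_hilb (by omega) _ _ h1, h2⟩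

/-- Here `φ(56) / 2 = 12` and `n = 11 ≡ -1 (mod 12)`; the same happens for every
`n = 12 r + 11`. -/
theorem result : Nat.totient 56 / 2 = 12 ∧
    IsPair (![1, 1, 3, 9, 11, 13, 15, 17, 17, 23, 25] : Fin 11 → ZMod 56)
      ![1, 1, 3, 9, 11, 13, 15, 17, 23, 25, 25] ∧
    ∀ r : ℕ, ∃ s s' : Fin (12 * r + 11) → ZMod 56, IsPair s s' := by
  refine ⟨by decide +kernel, ?_, fun r => ?_⟩
  · obtain ⟨h1, h2⟩ := Pool.Agent.Q186.Lens.pair56_explicit
    exact mk (by norm_num) (by decide +kernel) (by decide +kernel) h1 h2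
  · obtain ⟨s, s', hs, hs', h1, h2⟩ := Pool.Agent.Q186.Lens.pair56 r
    exact ⟨s, s', mk (by omega) hs hs' h1 h2⟩

end Pool.Agent.Results.MP_1b0b4e_gt.OrderFiftySix
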